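import Pool.Agent.Helper56.NoBorel

set_option autoImplicit false

open MeasureTheory
open Pool.Agent.Helper56.AutGroup

namespace Pool.Agent.Results.MP_1b52a3_lc.NoBorelReduction

/-- Let `(X, μ)` be an atomless standard probability space and `T₀ ∈ Aut(X, μ)`.
(Q1) The conjugacy relation of `Aut(X, μ)` does not Borel reduce to the conjugacy relation of the
full group `[T₀]`.
(Q2) The conjugacy relation of `Aut(X, μ)` on ergodic elements does not Borel reduce to the
conjugacy relation of `[T₀]` on ergodic elements.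
(Strong form) The conjugacy relation of `Aut(X, μ)` on ergodic elements does not Borel reduce to
the conjugacy relation of `[T₀]`. -/
theorem result {X : Type*} [MeasurableSpace X] [StandardBorelSpace X] (μ : Measure X)
    [IsProbabilityMeasure μ] (hμ : ∀ x, μ {x} = 0) (T₀ : Aut μ) :
    (¬ ∃ f : Aut μ → fullGroup T₀,
      @Measurable _ _ (@borel _ (weakTopology μ)) (@borel _ (uniformTopology T₀)) f ∧
      ∀ S S', AutConj S S' ↔ FullConj T₀ (f S) (f S')) ∧
    (¬ ∃ f : {S : Aut μ // Ergodic (rep S) μ} → {U : fullGroup T₀ // Ergodic (rep U.1) μ},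
      @Measurable _ _ ((@borel _ (weakTopology μ)).comap Subtype.val)
        ((@borel _ (uniformTopology T₀)).comap Subtype.val) f ∧
      ∀ S S', AutConj S.1 S'.1 ↔ FullConj T₀ (f S).1 (f S').1) ∧
    (¬ ∃ f : {S : Aut μ // Ergodic (rep S) μ} → fullGroup T₀,
      @Measurable _ _ ((@borel _ (weakTopology μ)).comap Subtype.val)
        (@borel _ (uniformTopology T₀)) f ∧
      ∀ S S', AutConj S.1 S'.1 ↔ FullConj T₀ (f S) (f S')) := by
  refine ⟨?_, ?_, Pool.Agent.Helper56.NoBorel.main μ hμ T₀⟩
  · rintro ⟨f, hf, h⟩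
    refine Pool.Agent.Helper56.NoBorel.main μ hμ T₀ ⟨fun S => f S.1, ?_, fun S S' => h _ _⟩
    exact @Measurable.comp _ _ _ _ (@borel _ (weakTopology μ)) _ _ _ hf
      (@comap_measurable _ _ (@borel _ (weakTopology μ)) Subtype.val)
  · rintro ⟨f, hf, h⟩
    refine Pool.Agent.Helper56.NoBorel.main μ hμ T₀ ⟨fun S => (f S).1, ?_, fun S S' => h _ _⟩
    exact @Measurable.comp _ _ _ _ _ (@borel _ (uniformTopology T₀)) _ _
      (@comap_measurable _ _ (@borel _ (uniformTopology T₀)) Subtype.val) hf

end Pool.Agent.Results.MP_1b52a3_lc.NoBorelReduction
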